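import Pool.Agent.NH13.Windows

/-!
# Montgomery's conjecture: almost all characters to every modulus, in every window

For every modulus, all but few of the characters have an error term of square root size
(up to a small power of the modulus) somewhere in every window, both in mean square and
pointwise.  No hypothesis is assumed.
-/

set_option autoImplicit false

open MeasureTheory Set

namespace Pool.Agent.Results.MP_9cfc0a_nt.AlmostAllCharacters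

/-- `ψ(x, χ)`, the sum of `Λ(n) χ(n)` over the positive integers `n ≤ x` -/
noncomputable def psi {q : ℕ} (χ : DirichletCharacter ℂ q) (x : ℝ) : ℂ :=
  ∑ n ∈ Finset.Icc 1 ⌊x⌋₊, (ArithmeticFunction.vonMangoldt n : ℂ) * χ (n : ZMod q)

/-- For all positive `A` and `δ` there is `C > 0` such that for every modulus `q ≥ 3` and every
`κ` with `0 < κ ≤ 1`, all but at most `C q / (κ³ (log q)²)` of the characters `χ` modulo `q` have
the following property: for every real `X` with `q ^ δ ≤ X ≤ q ^ A`, the integral of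
`|ψ(x, χ)|² / x²` over `X < x ≤ X q ^ (1 + δ)` exceeds `q ^ (- C κ)`, and
`|ψ(x, χ)| > √x q ^ (- C κ)` for some `x` with `X < x ≤ X q ^ (1 + δ)`. -/
theorem result (A δ : ℝ) (hA : 0 < A) (hδ : 0 < δ) : ∃ C : ℝ, 0 < C ∧
    ∀ q : ℕ, 3 ≤ q → ∀ κ : ℝ, 0 < κ → κ ≤ 1 →
    (({χ : DirichletCharacter ℂ q | ¬ ∀ X : ℝ, (q : ℝ) ^ δ ≤ X → X ≤ (q : ℝ) ^ A →
      ((q : ℝ) ^ (-(C * κ)) < ∫ x in Ioc X (X * (q : ℝ) ^ (1 + δ)), ‖psi χ x‖ ^ 2 / x ^ 2) ∧
      ∃ x ∈ Ioc X (X * (q : ℝ) ^ (1 + δ)),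
        Real.sqrt x * (q : ℝ) ^ (-(C * κ)) < ‖psi χ x‖}.ncard : ℕ) : ℝ) ≤
    C * q / (κ ^ 3 * Real.log q ^ 2) := by
  obtain ⟨C, hC, h⟩ := Pool.Agent.NH13.all_windows_pt A δ hA hδ
  refine ⟨C, hC, ?_⟩
  intro q hq κ hκ hκ1
  haveI : NeZero q := ⟨by omega⟩
  have hq0 : (0 : ℝ) < q := by exact_mod_cast (by omega : 0 < q)
  have hexp : (q : ℝ) ^ (-(C * κ)) = Real.exp (-(C * κ * Real.log q)) := by
    rw [Real.rpow_def_of_pos hq0]
    congr 1; ring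
  have key := h q hq κ hκ hκ1
  rw [hexp]
  refine le_trans ?_ key
  have hsub : {χ : DirichletCharacter ℂ q | ¬ ∀ X : ℝ, (q : ℝ) ^ δ ≤ X → X ≤ (q : ℝ) ^ A →
      (Real.exp (-(C * κ * Real.log q)) <
        ∫ x in Ioc X (X * (q : ℝ) ^ (1 + δ)), ‖psi χ x‖ ^ 2 / x ^ 2) ∧
      ∃ x ∈ Ioc X (X * (q : ℝ) ^ (1 + δ)),
        Real.sqrt x * Real.exp (-(C * κ * Real.log q)) < ‖psi χ x‖} ⊆
      {χ : DirichletCharacter ℂ q | ∃ X : ℝ, (q : ℝ) ^ δ ≤ X ∧ X ≤ (q : ℝ) ^ A ∧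
        ((∫ x in Ioc X (X * (q : ℝ) ^ (1 + δ)), ‖Pool.Agent.NH13.psi χ x‖ ^ 2 / x ^ 2 ≤
          Real.exp (-(C * κ * Real.log q))) ∨
        ∀ x ∈ Ioc X (X * (q : ℝ) ^ (1 + δ)), ‖Pool.Agent.NH13.psi χ x‖ ≤
          Real.sqrt x * Real.exp (-(C * κ * Real.log q)))} := by
    intro χ hχ
    rw [mem_setOf_eq] at hχ ⊢
    push Not at hχ
    obtain ⟨X, h1, h2, h3⟩ := hχ
    refine ⟨X, h1, h2, ?_⟩
    by_cases h4 : Real.exp (-(C * κ * Real.log q)) <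
        ∫ x in Ioc X (X * (q : ℝ) ^ (1 + δ)), ‖psi χ x‖ ^ 2 / x ^ 2
    · right
      intro x hx
      exact h3 h4 x hx
    · left
      exact not_lt.1 h4
  exact_mod_cast Set.ncard_le_ncard hsub (Set.toFinite _)

end Pool.Agent.Results.MP_9cfc0a_nt.AlmostAllCharacters
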