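import Pool.Agent.NH13.Classes

/-!
# Montgomery's conjecture: the exponents are optimal for every modulus in every window

For every large modulus and every window of the variable, the mean square over the reduced
classes, and the largest error, are as large as the conjecture allows, up to
`exp(C (log q log log q)^(1/3))`.  No hypothesis is assumed.
-/

set_option autoImplicit false

open MeasureTheory Set

namespace Pool.Agent.Results.MP_848d44_nt.EveryModulusEveryWindow

/-- `ψ(x, q, a)`, the sum of `Λ(n)` over the positive integers `n ≤ x` with `n ≡ a mod q`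
(used for `0 ≤ a < q`) -/
noncomputable def psiAP (x : ℝ) (q a : ℕ) : ℝ :=
  ∑ n ∈ (Finset.Icc 1 ⌊x⌋₊).filter (fun n => n % q = a), ArithmeticFunction.vonMangoldt n

/-- the sum of `(ψ(x, q, a) - x / φ(q))²` over the residues `a` prime to `q` -/
noncomputable def V (x : ℝ) (q : ℕ) : ℝ :=
  ∑ a ∈ (Finset.range q).filter (fun a => a.Coprime q), (psiAP x q a - x / q.totient) ^ 2

/-- For all positive `A` and `δ` there are `C > 0` and `q₀` such that for every modulus `q ≥ q₀`
and every real `X` with `q ^ δ ≤ X ≤ q ^ A`, writing `E = exp(C (log q log log q) ^ (1/3))`: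
the integral of `V(x, q) / x²` over `X < x ≤ X q ^ (1 + δ)` is at least `1 / E`, and there is a
point `x` in that window with `V(x, q) ≥ x / E` and with a reduced class `a` such that
`|ψ(x, q, a) - x / φ(q)| ≥ √(x / q) / E`. -/
theorem result (A δ : ℝ) (hA : 0 < A) (hδ : 0 < δ) : ∃ C : ℝ, 0 < C ∧ ∃ q₀ : ℕ, ∀ q : ℕ,
    q₀ ≤ q → ∀ X : ℝ, (q : ℝ) ^ δ ≤ X → X ≤ (q : ℝ) ^ A →
    Real.exp (-(C * (Real.log q * Real.log (Real.log q)) ^ (1 / 3 : ℝ))) ≤
      (∫ x in Ioc X (X * (q : ℝ) ^ (1 + δ)), V x q / x ^ 2) ∧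
    ∃ x ∈ Ioc X (X * (q : ℝ) ^ (1 + δ)),
      x * Real.exp (-(C * (Real.log q * Real.log (Real.log q)) ^ (1 / 3 : ℝ))) ≤ V x q ∧
      ∃ a : ℕ, a < q ∧ a.Coprime q ∧
        Real.sqrt (x / q) *
          Real.exp (-(C * (Real.log q * Real.log (Real.log q)) ^ (1 / 3 : ℝ))) ≤
          |psiAP x q a - x / q.totient| :=
  Pool.Agent.NH13.classes_point A δ hA hδ

end Pool.Agent.Results.MP_848d44_nt.EveryModulusEveryWindow
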